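import Pool.Agent.Work.MP_05e9ba_an.Defs
import Pool.Agent.Work.MP_05e9ba_an.Noncomm
import Pool.Agent.Work.MP_05e9ba_an.ScalarTri
import Pool.Agent.Work.MP_05e9ba_an.Sufficiency

namespace Pool.Agent.Results.MP_05e9ba_an.Classification

open Pool.Agent.Work.MP_05e9ba_an

universe u

/-- A C*-algebra `A` (unital or not) has the scalar extension behaviour if and only if it is
nonzero, commutative, and any two disjoint sigma-compact open subsets of its Gelfand spectrum have
disjoint closures. -/
theorem result (A : Type u) [NonUnitalCStarAlgebra A] :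
    ScalarExtensionBehaviour A ↔
      (Nontrivial A ∧ (∀ x y : A, x * y = y * x) ∧
        ∀ U V : Set (WeakDual.characterSpace ℂ A), IsOpen U → IsOpen V →
          IsSigmaCompact U → IsSigmaCompact V → Disjoint U V →
            Disjoint (closure U) (closure V)) := by
  constructor
  · intro h
    have htri : ExtensionProperty A Ltri := (h 2 (by norm_num) Ltri).1 ext_tri_complex
    have hcomm : ∀ x y : A, x * y = y * x := comm_of_ext htri
    refine ⟨?_, hcomm, ?_⟩
    · by_contra hA
      rw [not_nontrivial_iff_subsingleton] at hA
      refine not_ext_bad ((h 1 le_rfl Lbad).2 fun a _ K _ => ⟨a, fun _ _ _ _ => rfl, 0, ?_⟩)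
      ext i j
      exact Subsingleton.elim _ _
    · let _ : NonUnitalCommCStarAlgebra A :=
        { (inferInstance : NonUnitalCStarAlgebra A) with mul_comm := hcomm }
      exact sep_of_ext htri
  · rintro ⟨hA, hcomm, hsep⟩ d _ L
    let _ : NonUnitalCommCStarAlgebra A :=
      { (inferInstance : NonUnitalCStarAlgebra A) with mul_comm := hcomm }
    exact ⟨ext_of_sep hsep, ext_complex_of_ext⟩

end Pool.Agent.Results.MP_05e9ba_an.Classification
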